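import Pool.Agent.V5helper40.FR.LatE
import Pool.Agent.V5helper40.FR.M3
import Pool.Agent.V5helper91.FR.T1
import Pool.Agent.V5helper91.FR.T2
import Pool.Agent.V5helper9.FR.T3
import Pool.Agent.V5helper9.FR.M12
import Pool.Agent.V5helper70.FR.T4
import Pool.Agent.V5helper12.FR.L6

/-!
# MP_fad775_nt: congruences modulo all powers of 7 for the (6, β)-colored generalized Frobenius
partition functions

The whole of Q1, answered positively.

Idea of the proof. Put `x = q^{1/24}`, `G_β = ∑ cψ_{6,β}(n) x^{24 n + 12 - 2 β²}` and let `U` be the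
operator extracting every seventh coefficient in `x`. The functions `G_0, …, G_3` and `η⁴ ϑ_j`
(`ϑ_j = ∑_{r ≡ j (6)} x^{2 r²}`) satisfy modular differential equations of order four, and there are
matrices over `ℤ[t]`, `t = (η(7τ)/η(τ))⁴`, expressing the derivatives of each family by those of
the other one at `7τ`. So `U` acts on the free module spanned by the derivatives; the modular
equation of degree seven and Watson's equation give the action explicitly, and it maps a lattice over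
`ℤ₍₇₎[7 t]` to itself with image of rank one modulo seven.
-/

set_option autoImplicit false

namespace Pool.Agent.Results.MP_fad775_nt.PowersOfSeven

open scoped LaurentPolynomial

noncomputable section

/-- `∑_{m ∈ ℤ} q^{m(m+1)/2} ζ^{m+1/2}`, a power series in `q` whose coefficients are Laurent
polynomials in `T = ζ^{1/2}`: the coefficient of `q^n` is the sum of `T^{2m+1}` over the integers `m`
with `m(m+1) = 2n` (all of them lie in the interval `[-n-1, n]`). -/
def thetaNum : PowerSeries ℤ[T;T⁻¹] :=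
  PowerSeries.mk fun n =>
    ∑ m ∈ (Finset.Icc (-(n : ℤ) - 1) (n : ℤ)).filter (fun m : ℤ => m * (m + 1) = 2 * (n : ℤ)),
      LaurentPolynomial.T (2 * m + 1)

/-- `∏_{j ≥ 1} (1 - q^j)` over `ℤ[T, T⁻¹]` (the coefficient of `q^n` only depends on the factors with
`j ≤ n`). -/
def eulerProd : PowerSeries ℤ[T;T⁻¹] :=
  PowerSeries.mk fun n =>
    PowerSeries.coeff n
      (∏ j ∈ Finset.range n, (1 - (PowerSeries.X : PowerSeries ℤ[T;T⁻¹]) ^ (j + 1)))

/-- `F_k = (∑_m q^{m(m+1)/2} ζ^{m+1/2})^k / ∏_{j ≥ 1} (1 - q^j)^k`. -/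
def F (k : ℕ) : PowerSeries ℤ[T;T⁻¹] :=
  thetaNum ^ k * PowerSeries.invOfUnit (eulerProd ^ k) 1

/-- `cψ_{k,β}(n)`: the coefficient of `ζ^β q^n = T^{2β} q^n` in `F_k`, and `0` for `n < 0`. -/
def cpsi (k : ℕ) (β n : ℤ) : ℤ :=
  if n < 0 then 0 else (PowerSeries.coeff n.toNat (F k)).coeff (2 * β)

theorem cpsi_eq (k : ℕ) (β n : ℤ) : cpsi k β n = Pool.Agent.V5helper40.FR.cpsi k β n := rfl

/-- The constant coefficient of the Euler product is `1`. -/
theorem eulerProd_zero : PowerSeries.constantCoeff eulerProd = 1 := by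
  rw [← PowerSeries.coeff_zero_eq_constantCoeff_apply, eulerProd, PowerSeries.coeff_mk]
  simp

/-- `F_k` is the quotient of the two series. -/
theorem F_mul (k : ℕ) : F k * eulerProd ^ k = thetaNum ^ k := by
  have h : eulerProd ^ k * PowerSeries.invOfUnit (eulerProd ^ k) 1 = 1 :=
    PowerSeries.mul_invOfUnit _ 1 (by rw [map_pow, eulerProd_zero, one_pow]; rfl)
  rw [F]
  linear_combination thetaNum ^ k * h

/-- **Q1 of MP_fad775_nt.** For every `α ≥ 1` there is an integer `x` such that for all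
`β ∈ {0, 1, 2, 3}` and all integers `n` with `12 n ≡ β² - 6 (mod 7^(2α-1))` we have
`cψ_{6,β}(49 n + 24 - 4 β²) ≡ x cψ_{6,β}(n) (mod 7^α)`. -/
theorem result : ∀ α : ℕ, 1 ≤ α → ∃ x : ℤ, ∀ β ∈ ({0, 1, 2, 3} : Finset ℤ), ∀ n : ℤ,
    12 * n ≡ β ^ 2 - 6 [ZMOD 7 ^ (2 * α - 1)] →
      cpsi 6 β (49 * n + 24 - 4 * β ^ 2) ≡ x * cpsi 6 β n [ZMOD 7 ^ α] := by
  intro α hα
  have hM : Pool.Agent.V5helper40.FR.JobM := fun h =>
    ⟨(Pool.Agent.V5helper9.FR.m12 h).1, (Pool.Agent.V5helper9.FR.m12 h).2,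
      Pool.Agent.V5helper40.FR.m3 (Pool.Agent.V5helper9.FR.m12 h).2⟩
  obtain ⟨x, hx⟩ := Pool.Agent.V5helper40.FR.main_of Pool.Agent.V5helper91.FR.t1
    Pool.Agent.V5helper91.FR.t2 Pool.Agent.V5helper9.FR.t3 Pool.Agent.V5helper70.FR.t4
    Pool.Agent.V5helper12.FR.l hM α hα
  refine ⟨x, ?_⟩
  intro β hβ n hn
  simp only [cpsi_eq]
  refine hx β ?_ ?_ n hn
  · simp only [Finset.mem_insert, Finset.mem_singleton] at hβ
    rcases hβ with rfl | rfl | rfl | rfl <;> norm_num
  · simp only [Finset.mem_insert, Finset.mem_singleton] at hβ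
    rcases hβ with rfl | rfl | rfl | rfl <;> norm_num

end

end Pool.Agent.Results.MP_fad775_nt.PowersOfSeven
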